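import Pool.Agent.Helper97.Ku.GoalsG

/-! Fullness for names of functions, and extensionality of formulas (packet 2088). -/

namespace Pool.Agent.Helper97.Ku.PkFNFE

universe u v w

open Pool.Agent.Helper97.Ku

section

variable {Ω : Type u} {L : Type w} [LinearOrder Ω] [CompleteBooleanAlgebra L]

theorem eqf_comm (x y : FN Ω L) : x.eqf y = y.eqf x := by
  unfold FN.eqf FN.eqAt
  simp only [inf_comm]

theorem eqf_ap (x y : FN Ω L) (i j : Ω) : x.eqf y ⊓ x.v i j ≤ y.v i j := by
  refine le_trans (inf_le_inf_right _ (iInf_le _ i)) ?_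
  unfold FN.eqAt
  rw [iSup_inf_eq]
  refine iSup_le fun k => ?_
  by_cases h : k = j
  · subst h
    exact le_trans inf_le_left inf_le_right
  · have h1 : x.v i k ⊓ y.v i k ⊓ x.v i j ≤ x.v i k ⊓ x.v i j :=
      inf_le_inf_right _ inf_le_left
    rw [x.fn i k j h] at h1
    exact le_trans h1 bot_le

theorem Ext.compl {A : FN Ω L → L} (h : FN.Ext A) : FN.Ext (fun x => (A x)ᶜ) := by
  intro x y
  have h1 : y.eqf x ⊓ A y ≤ A x := h y x
  rw [le_compl_iff_disjoint_right, disjoint_iff_inf_le]
  have h2 : x.eqf y ⊓ (A x)ᶜ ⊓ A y ≤ A x ⊓ (A x)ᶜ := by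
    refine le_inf ?_ (le_trans inf_le_left inf_le_right)
    refine le_trans ?_ h1
    rw [eqf_comm y x]
    exact inf_le_inf_right _ inf_le_left
  refine le_trans h2 ?_
  rw [inf_compl_eq_bot]

/-- Mixtures along a partition of unity. -/
theorem mixTop {ι : Type*} (a : ι → L) (x : ι → FN Ω L) (hs : ⨆ i, a i = ⊤)
    (hd : ∀ i j, i ≠ j → a i ⊓ a j = ⊥) : ∃ y : FN Ω L, ∀ i, a i ≤ (x i).eqf y := by
  refine ⟨⟨fun j k => ⨆ i, (a i ⊓ (x i).v j k), fun j => ?_, fun j k l hkl => ?_⟩, fun i => ?_⟩
  · rw [iSup_comm]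
    simp only [← inf_iSup_eq, (x _).tot, inf_top_eq]
    exact hs
  · rw [iSup_inf_iSup]
    rw [iSup_eq_bot]
    rintro ⟨i, i'⟩
    dsimp only
    by_cases h : i = i'
    · subst h
      rw [inf_inf_inf_comm, (x i).fn j k l hkl, inf_bot_eq]
    · rw [inf_inf_inf_comm, hd i i' h, bot_inf_eq]
  · refine le_iInf fun j => ?_
    unfold FN.eqAt
    dsimp only
    calc a i = a i ⊓ ⨆ k, (x i).v j k := by rw [(x i).tot, inf_top_eq]
      _ = ⨆ k, (a i ⊓ (x i).v j k) := inf_iSup_eq _ _
      _ ≤ _ := by
        refine iSup_mono fun k => le_inf inf_le_right ?_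
        exact le_iSup (fun i => a i ⊓ (x i).v j k) i

theorem full [Nonempty Ω] (A : FN Ω L → L) (hA : FN.Ext A) : ∃ a, A a = ⨆ b, A b := by
  classical
  -- a default name
  obtain ⟨ω⟩ := ‹Nonempty Ω›
  let x0 : FN Ω L := ⟨fun _ j => bo (j = ω), fun i => by
      rw [eq_top_iff]
      refine le_trans ?_ (le_iSup _ ω)
      simp [bo], fun i j k hjk => by
      by_cases hj : j = ω
      · have : k ≠ ω := fun h => hjk (hj.trans h.symm)
        simp [bo, this]
      · simp [bo, hj]⟩
  -- well-order of the names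
  let r : FN Ω L → FN Ω L → Prop := WellOrderingRel
  haveI : IsWellOrder (FN Ω L) r := WellOrderingRel.isWellOrder
  let a : FN Ω L → L := fun c => A c ⊓ (⨆ d, ⨆ _ : r d c, A d)ᶜ
  have hadj : ∀ c d, r d c → a c ⊓ a d = ⊥ := by
    intro c d hdc
    rw [← le_bot_iff]
    have h1 : a c ⊓ a d ≤ (⨆ d, ⨆ _ : r d c, A d)ᶜ ⊓ A d :=
      inf_le_inf inf_le_right inf_le_left
    refine le_trans h1 ?_
    have h2 : A d ≤ ⨆ d, ⨆ _ : r d c, A d := le_trans (le_iSup (fun _ : r d c => A d) hdc)
      (le_iSup (fun d => ⨆ _ : r d c, A d) d)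
    refine le_trans (inf_le_inf_left _ h2) ?_
    rw [compl_inf_eq_bot]
  have hdisj : ∀ c d, c ≠ d → a c ⊓ a d = ⊥ := by
    intro c d hcd
    rcases trichotomous_of r c d with h | h | h
    · rw [inf_comm]; exact hadj d c h
    · exact absurd h hcd
    · exact hadj c d h
  have hsup : ∀ c, A c ≤ ⨆ d, a d := by
    intro c
    induction c using (IsWellFounded.wf (r := r)).induction with
    | _ c ih =>
      have h1 : A c = a c ⊔ (A c ⊓ (⨆ d, ⨆ _ : r d c, A d)) := by
        rw [← inf_sup_left, compl_sup_eq_top, inf_top_eq]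
      rw [h1]
      refine sup_le (le_iSup a c) (le_trans inf_le_right ?_)
      exact iSup_le fun d => iSup_le fun h => ih d h
  let s : L := ⨆ d, a d
  obtain ⟨y, hy⟩ := mixTop (ι := Option (FN Ω L))
    (fun o => Option.elim o sᶜ a) (fun o => Option.elim o x0 id) (by
      rw [iSup_option]
      simp only [Option.elim]
      exact compl_sup_eq_top) (by
      have hn : ∀ c, sᶜ ⊓ a c = ⊥ := by
        intro c
        rw [← le_bot_iff]
        refine le_trans (inf_le_inf_left _ (le_iSup a c)) ?_
        exact le_of_eq compl_inf_eq_bot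
      rintro (_ | c) (_ | d) h
      · exact absurd rfl h
      · simpa using hn d
      · rw [inf_comm]; simpa using hn c
      · simpa using hdisj c d (fun hc => h (by rw [hc])))
  refine ⟨y, le_antisymm (le_iSup A y) (iSup_le fun c => ?_)⟩
  refine le_trans (hsup c) (iSup_le fun d => ?_)
  have h1 : a d ≤ d.eqf y := by simpa using hy (some d)
  refine le_trans ?_ (hA d y)
  exact le_inf h1 inf_le_left

/-- Extensionality for structures whose application is extensional. -/
theorem val_ext {W : Type v} (M : BStr W (FN Ω L) L)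
    (hM : ∀ x y a b, x.eqf y ⊓ M.ap x a b ≤ M.ap y a b) (φ : SO) :
    ∀ (i : ℕ → W) (e : ℕ → FN Ω L) (k : ℕ),
      FN.Ext (fun x => φ.val M i (Function.update e k x)) := by
  induction φ with
  | lt a b => intro i e k x y; exact inf_le_right
  | eq a b => intro i e k x y; exact inf_le_right
  | om a => intro i e k x y; exact inf_le_right
  | ap f a b =>
    intro i e k x y
    simp only [SO.val]
    by_cases h : f = k
    · subst h
      rw [Function.update_self, Function.update_self]
      exact hM x y _ _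
    · rw [Function.update_of_ne h, Function.update_of_ne h]
      exact inf_le_right
  | neg a ih => intro i e k; exact Ext.compl (ih i e k)
  | and a b iha ihb =>
    intro i e k x y
    exact le_inf (le_trans (inf_le_inf_left _ inf_le_left) (iha i e k x y))
      (le_trans (inf_le_inf_left _ inf_le_right) (ihb i e k x y))
  | all j a ih =>
    intro i e k x y
    simp only [SO.val]
    exact le_iInf fun z => le_trans (inf_le_inf_left _ (iInf_le _ z))
      (ih (Function.update i j z) e k x y)
  | allF f a ih =>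
    intro i e k x y
    simp only [SO.val]
    refine le_iInf fun z => le_trans (inf_le_inf_left _ (iInf_le _ z)) ?_
    by_cases h : f = k
    · subst h
      rw [Function.update_idem, Function.update_idem]
      exact inf_le_right
    · rw [Function.update_comm (Ne.symm h), Function.update_comm (Ne.symm h)]
      exact ih i (Function.update e f z) k x y

end

theorem fnf : G_FNF.{u} := by
  intro Ω _ _ L _ A hA
  refine ⟨full A hA, ?_⟩
  obtain ⟨a, ha⟩ := full (fun x => (A x)ᶜ) (Ext.compl hA)
  refine ⟨a, ?_⟩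
  have h1 : (A a)ᶜ = (⨅ b, A b)ᶜ := by rw [ha, compl_iInf]
  exact compl_injective h1

theorem fne : G_FNE.{u} := by
  intro Ω _ L _ G φ e k
  refine ⟨fun i => val_ext (M1 G L) ?_ φ i e k, fun i => val_ext (M0 G L) ?_ φ i e k⟩
  · intro x y a b
    simp only [M1]
    rw [inf_iSup_eq]
    refine iSup_mono fun i => ?_
    rw [inf_iSup_eq]
    refine iSup_mono fun j => ?_
    refine le_inf (le_trans inf_le_right inf_le_left) ?_
    refine le_trans ?_ (eqf_ap x y i j)
    exact inf_le_inf_left _ inf_le_right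
  · intro x y a b
    exact eqf_ap x y a b

end Pool.Agent.Helper97.Ku.PkFNFE
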