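import Pool.Agent.Helper97.Ku.GoalsA

/-! Pairing, union, power set and separation for Boolean-valued sets (packet 2062). -/

namespace Pool.Agent.Helper97.Ku.PkSets

universe u

open Pool.Agent.Helper97.Ku BSet

variable {L : Type u} [CompleteBooleanAlgebra L]

theorem pairB (a b : BSet L) : ∃ c : BSet L, ∀ x : BSet L, x.mem c = x.eq a ⊔ x.eq b := by
  refine ⟨mk (ULift.{u} Bool) (fun t => if t.down then a else b) (fun _ => ⊤), fun x => ?_⟩
  rw [mem_mk]
  apply le_antisymm
  · refine iSup_le fun t => ?_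
    rw [top_inf_eq]
    by_cases h : t.down
    · rw [if_pos h]; exact le_sup_left
    · rw [if_neg h]; exact le_sup_right
  · refine sup_le ?_ ?_
    · refine le_trans ?_ (le_iSup _ (ULift.up true))
      simp
    · refine le_trans ?_ (le_iSup _ (ULift.up false))
      simp

theorem unionB (a : BSet L) : ∃ c : BSet L, ∀ x : BSet L,
    x.mem c = ⨆ y : BSet L, (y.mem a ⊓ x.mem y) := by
  refine ⟨mk (Σ i : a.ix, (a.el i).ix) (fun t => (a.el t.1).el t.2)
    (fun t => a.bv t.1 ⊓ (a.el t.1).bv t.2), fun x => ?_⟩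
  rw [mem_mk, iSup_mem a (fun y => x.mem y) (Ext.mem_right x), iSup_sigma]
  refine iSup_congr fun i => ?_
  rw [mem_def x (a.el i), inf_iSup_eq]
  refine iSup_congr fun j => ?_
  exact inf_assoc _ _ _

theorem sepB (φ : BSet L → L) (h : Ext φ) (a : BSet L) : ∃ b : BSet L, ∀ x : BSet L,
    x.mem b = x.mem a ⊓ φ x := by
  refine ⟨mk a.ix a.el (fun i => a.bv i ⊓ φ (a.el i)), fun x => ?_⟩
  rw [mem_mk, mem_def x a, iSup_inf_eq]
  refine iSup_congr fun i => ?_
  apply le_antisymm
  · refine le_inf (le_inf (le_trans inf_le_left inf_le_left) inf_le_right) ?_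
    refine le_trans ?_ (h (a.el i) x)
    rw [eq_comm' (a.el i) x]
    exact le_inf inf_le_right (le_trans inf_le_left inf_le_right)
  · refine le_inf (le_inf (le_trans inf_le_left inf_le_left) ?_) (le_trans inf_le_left inf_le_right)
    refine le_trans ?_ (h x (a.el i))
    exact inf_le_inf_right _ inf_le_right

theorem powerB (a : BSet L) : ∃ c : BSet L, ∀ x : BSet L,
    x.mem c = ⨅ z : BSet L, (z.mem x ⇨ z.mem a) := by
  refine ⟨mk (a.ix → L) (fun g => mk a.ix a.el g)
    (fun g => ⨅ z : BSet L, (z.mem (mk a.ix a.el g) ⇨ z.mem a)), fun x => ?_⟩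
  have hE : Ext (fun x : BSet L => ⨅ z : BSet L, (z.mem x ⇨ z.mem a)) :=
    Ext.iInf fun z => Ext.himp (Ext.mem_right z) (Ext.const _)
  rw [mem_mk]
  apply le_antisymm
  · refine iSup_le fun g => ?_
    refine le_trans ?_ (hE (mk a.ix a.el g) x)
    rw [inf_comm, eq_comm' x]
  · -- the candidate
    set g : a.ix → L := fun i => (a.el i).mem x ⊓ a.bv i with hg
    set y : BSet L := mk a.ix a.el g with hy
    set s : L := ⨅ z : BSet L, (z.mem x ⇨ z.mem a) with hs
    have h1 : ∀ z : BSet L, z.mem y ≤ z.mem x := by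
      intro z
      rw [hy, mem_mk]
      refine iSup_le fun i => ?_
      refine le_trans ?_ (mem_congr_left (a.el i) z x)
      rw [eq_comm' (a.el i) z]
      exact le_inf inf_le_right (le_trans inf_le_left inf_le_left)
    have h2 : ∀ z : BSet L, s ⊓ z.mem x ≤ z.mem y := by
      intro z
      have h3 : s ⊓ z.mem x ≤ z.mem a := by
        rw [← le_himp_iff]; exact iInf_le _ z
      have h4 : s ⊓ z.mem x ≤ z.mem a ⊓ z.mem x := le_inf h3 inf_le_right
      refine le_trans h4 ?_
      rw [mem_def z a, iSup_inf_eq, hy, mem_mk]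
      refine iSup_mono fun i => ?_
      refine le_inf (le_inf ?_ (le_trans inf_le_left inf_le_left))
        (le_trans inf_le_left inf_le_right)
      refine le_trans ?_ (mem_congr_left z (a.el i) x)
      exact inf_le_inf_right _ inf_le_right
    have h5 : s ≤ x.eq y := by
      refine le_trans ?_ (ext_le x y)
      refine le_iInf fun z => le_inf ?_ ?_
      · rw [le_himp_iff]; exact h2 z
      · rw [le_himp_iff]; exact le_trans inf_le_right (h1 z)
    refine le_trans ?_ (le_iSup _ g)
    refine le_inf ?_ h5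
    refine le_trans ?_ (hE x y)
    exact le_inf h5 le_rfl

theorem sets : G_SETS.{u} := by
  intro L _
  exact ⟨pairB, unionB, powerB, fun φ h a => sepB φ h a⟩

end Pool.Agent.Helper97.Ku.PkSets
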