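import Pool.Agent.Helper97.Ku.GoalsC

/-! One level of the fusion. -/

namespace Pool.Agent.Helper97.Ku.PkSTEP

open Set

open Classical in
/-- The amalgamation, as a total function. -/
noncomputable def amX (p d : Cond) (D : Set Coord) : Cond :=
  if h : d ≤ p.rs D ∧ d.supp ⊆ D then am p d (cmp_of_le h.1 h.2) else p

theorem amX_le (p d : Cond) (D : Set Coord) : amX p d D ≤ p := by
  unfold amX
  split_ifs with h
  · exact am_le_left _
  · exact le_rfl

theorem amX_rs {p d : Cond} {D : Set Coord} (h : d ≤ p.rs D) (hd : d.supp ⊆ D) :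
    (amX p d D).rs D = d := by
  unfold amX
  rw [dif_pos ⟨h, hd⟩]
  exact am_rs h hd

theorem amX_rs_sub (p d : Cond) {D D' : Set Coord} (hDD' : D ⊆ D') :
    (amX p d D).rs D' = amX (p.rs D') d D := by
  unfold amX
  by_cases h : d ≤ p.rs D ∧ d.supp ⊆ D
  · have h' : d ≤ (p.rs D').rs D ∧ d.supp ⊆ D := by
      rw [p.rs_rs_of_subset hDD']; exact h
    rw [dif_pos h, dif_pos h']
    exact am_rs_of_subset h.1 h.2 hDD'
  · have h' : ¬ (d ≤ (p.rs D').rs D ∧ d.supp ⊆ D) := by
      rw [p.rs_rs_of_subset hDD']; exact h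
    rw [dif_neg h, dif_neg h']

theorem agree_symm {k : ℕ} {σ τ : ℕ → Bool} (h : Agree k σ τ) : Agree k τ σ :=
  fun i hi => (h i hi).symm

theorem agree_trans {k : ℕ} {σ τ ρ : ℕ → Bool} (h : Agree k σ τ) (h' : Agree k τ ρ) :
    Agree k σ ρ := fun i hi => (h i hi).trans (h' i hi)

theorem agree_mono {j k : ℕ} {σ τ : ℕ → Bool} (hjk : j ≤ k) (h : Agree k σ τ) :
    Agree j σ τ := fun i hi => h i (lt_of_lt_of_le hi hjk)

/-- The first difference. -/
noncomputable def mu (T σ : ℕ → Bool) : ℕ := sInf {i | σ i ≠ T i}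

theorem agree_mu (T σ : ℕ → Bool) : Agree (mu T σ) σ T := by
  intro i hi
  by_contra h
  have h1 : mu T σ ≤ i := Nat.sInf_le (s := {i | σ i ≠ T i}) h
  omega

theorem mu_spec {T σ : ℕ → Bool} {k : ℕ} (h : ¬ Agree k σ T) :
    mu T σ < k ∧ σ (mu T σ) ≠ T (mu T σ) := by
  have h1 : ∃ i, i < k ∧ σ i ≠ T i := by
    by_contra h2
    apply h
    intro i hi
    by_contra h3
    exact h2 ⟨i, hi, h3⟩
  obtain ⟨i, hi, hi'⟩ := h1
  refine ⟨lt_of_le_of_lt (Nat.sInf_le (s := {i | σ i ≠ T i}) hi') hi, ?_⟩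
  exact Nat.sInf_mem (s := {i | σ i ≠ T i}) ⟨i, hi'⟩

theorem mu_eq {T σ σ' : ℕ → Bool} {j : ℕ} (h : Agree j σ σ') (h' : ¬ Agree j σ T) :
    mu T σ' = mu T σ := by
  obtain ⟨h1, h2⟩ := mu_spec h'
  apply le_antisymm
  · apply Nat.sInf_le (s := {i | σ' i ≠ T i})
    show σ' (mu T σ) ≠ T (mu T σ)
    rw [← h _ h1]; exact h2
  · by_contra h3
    have h3' : mu T σ' < mu T σ := not_le.mp h3
    have h4 : ¬ Agree j σ' T := fun h5 => h' (agree_trans h h5)
    obtain ⟨h5, h6⟩ := mu_spec h4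
    rw [← h _ h5] at h6
    exact h6 (agree_mu T σ _ h3')

/-- Decisions persist. -/
theorem opp_lower {I : Type 1} {b : I → BA} {i : I} {u v u' v' : Cond} (hu : u' ≤ u)
    (hv : v' ≤ v) (h : Opp b i u v) : Opp b i u' v' := by
  rcases h with ⟨h1, h2⟩ | ⟨h1, h2⟩
  · exact Or.inl ⟨RO.lower hu h1, RO.lower hv h2⟩
  · exact Or.inr ⟨RO.lower hu h1, RO.lower hv h2⟩

theorem opp_symm {I : Type 1} {b : I → BA} {i : I} {u v : Cond} (h : Opp b i u v) :
    Opp b i v u := by
  rcases h with ⟨h1, h2⟩ | ⟨h1, h2⟩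
  · exact Or.inr ⟨h2, h1⟩
  · exact Or.inl ⟨h2, h1⟩

/-- Restriction below a level. -/
theorem key (D : ℕ → Set Coord) (hD : Monotone D) (k : ℕ) (QA : (ℕ → Bool) → Cond)
    (hS : Sys D k (k + 1) QA) (T : ℕ → Bool) (u' : Cond) (hu : u' ≤ QA T)
    (σ : ℕ → Bool) (hσ : ¬ Agree k σ T) {j : ℕ} (hj : j ≤ mu T σ) :
    (amX (QA σ) (u'.rs (D (mu T σ))) (D (mu T σ))).rs (D j) = u'.rs (D j) := by
  obtain ⟨h1, _⟩ := mu_spec hσ
  have h2 : (QA σ).rs (D (mu T σ)) = (QA T).rs (D (mu T σ)) :=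
    hS.2 _ h1.le _ _ (agree_mu T σ)
  have h3 : (amX (QA σ) (u'.rs (D (mu T σ))) (D (mu T σ))).rs (D (mu T σ)) =
      u'.rs (D (mu T σ)) := by
    apply amX_rs
    · rw [h2]; exact Cond.rs_mono hu _
    · exact Cond.supp_rs_subset _ _
  have h4 := Cond.rs_rs_of_subset (amX (QA σ) (u'.rs (D (mu T σ))) (D (mu T σ))) (hD hj)
  rw [← h4, h3]
  exact Cond.rs_rs_of_subset _ (hD hj)

/-- The induction step. -/
theorem ins (hSP : G_SP2) (I : Type 1) (b : I → BA) (D : ℕ → Set Coord) (k : ℕ) (p : Cond)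
    (hD : Monotone D) (hp : ∀ q, q ≤ p → ¬ Capt b (D k) q)
    (QA : (ℕ → Bool) → Cond) (nA : (ℕ → Bool) → I) (hS : Sys D k (k + 1) QA)
    (hQ : ∀ σ, QA σ ≤ p) (hn : ∀ σ τ, Agree k σ τ → nA σ = nA τ) (T : ℕ → Bool)
    (hT : T k = false) :
    ∃ (Q' : (ℕ → Bool) → Cond) (n : (ℕ → Bool) → I), Sys D k (k + 1) Q' ∧
      (∀ σ, Q' σ ≤ QA σ) ∧ (∀ σ τ, Agree k σ τ → n σ = n τ) ∧
      (∀ σ, ¬ Agree k σ T → n σ = nA σ) ∧
      ∀ σ τ, Agree k σ T → Agree k σ τ → σ k ≠ τ k → Opp b (n σ) (Q' σ) (Q' τ) := by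
  classical
  obtain ⟨T1, hT1⟩ : ∃ T1 : ℕ → Bool, T1 = fun i => if i = k then true else T i := ⟨_, rfl⟩
  have hTT : Agree k T T1 := by
    intro i hi
    rw [hT1]
    simp [hi.ne]
  have hT1k : T1 k = true := by rw [hT1]; simp
  obtain ⟨i, u', v', hu, hv, huv, hop⟩ := hSP I b (D k) p hp (QA T) (QA T1) (hQ _) (hQ _)
    (hS.2 k le_rfl _ _ hTT)
  obtain ⟨Q', hQ'⟩ : ∃ Q' : (ℕ → Bool) → Cond, Q' = fun σ =>
      if Agree k σ T then (if σ k = true then v' else u')
      else amX (QA σ) (u'.rs (D (mu T σ))) (D (mu T σ)) := ⟨_, rfl⟩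
  have e1 : ∀ σ, Agree k σ T → σ k = true → Q' σ = v' := by
    intro σ h1 h2
    rw [hQ']; simp only [h1, h2, if_true]
  have e0 : ∀ σ, Agree k σ T → σ k = false → Q' σ = u' := by
    intro σ h1 h2
    rw [hQ']; simp only [h1, h2, if_true, Bool.false_eq_true, if_false]
  have e2 : ∀ σ, ¬ Agree k σ T →
      Q' σ = amX (QA σ) (u'.rs (D (mu T σ))) (D (mu T σ)) := by
    intro σ h1
    rw [hQ']; simp only [h1, if_false]
  have hX : ∀ σ j, j ≤ k → Agree j σ T → (Q' σ).rs (D j) = u'.rs (D j) := by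
    intro σ j hj hσ
    by_cases h1 : Agree k σ T
    · cases h2 : σ k with
      | true =>
        rw [e1 σ h1 h2]
        exact (Cond.rs_eq_of_subset (hD hj) huv).symm
      | false => rw [e0 σ h1 h2]
    · rw [e2 σ h1]
      apply key D hD k QA hS T u' hu σ h1
      obtain ⟨h3, h4⟩ := mu_spec h1
      by_contra h5
      exact h4 (hσ _ (not_le.mp h5))
  refine ⟨Q', fun σ => if Agree k σ T then i else nA σ, ⟨?_, ?_⟩, ?_, ?_, ?_, ?_⟩
  · intro σ τ h
    have hk : Agree k σ τ := agree_mono (Nat.le_succ k) h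
    have hk' : σ k = τ k := h k (Nat.lt_succ_self k)
    by_cases h1 : Agree k σ T
    · have h1' : Agree k τ T := agree_trans (agree_symm hk) h1
      cases h2 : σ k with
      | true => rw [e1 σ h1 h2, e1 τ h1' (hk' ▸ h2)]
      | false => rw [e0 σ h1 h2, e0 τ h1' (hk' ▸ h2)]
    · have h1' : ¬ Agree k τ T := fun h2 => h1 (agree_trans hk h2)
      rw [e2 σ h1, e2 τ h1', mu_eq hk h1, hS.1 σ τ h]
  · intro j hj σ τ h
    by_cases h1 : Agree j σ T
    · have h1' : Agree j τ T := agree_trans (agree_symm h) h1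
      rw [hX σ j hj h1, hX τ j hj h1']
    · have h1' : ¬ Agree j τ T := fun h2 => h1 (agree_trans h h2)
      have h2 : ¬ Agree k σ T := fun h3 => h1 (agree_mono hj h3)
      have h2' : ¬ Agree k τ T := fun h3 => h1' (agree_mono hj h3)
      obtain ⟨h3, _⟩ := mu_spec h1
      rw [e2 σ h2, e2 τ h2', mu_eq h h1, amX_rs_sub _ _ (hD h3.le), amX_rs_sub _ _ (hD h3.le),
        hS.2 j hj σ τ h]
  · intro σ
    by_cases h1 : Agree k σ T
    · cases h2 : σ k with
      | true =>
        rw [e1 σ h1 h2]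
        have h3 : QA σ = QA T1 := by
          apply hS.1
          intro l hl
          rcases Nat.lt_succ_iff_lt_or_eq.mp hl with h4 | h4
          · exact (h1 l h4).trans (hTT l h4)
          · rw [h4, h2, hT1k]
        rw [h3]; exact hv
      | false =>
        rw [e0 σ h1 h2]
        have h3 : QA σ = QA T := by
          apply hS.1
          intro l hl
          rcases Nat.lt_succ_iff_lt_or_eq.mp hl with h4 | h4
          · exact h1 l h4
          · rw [h4, h2, hT]
        rw [h3]; exact hu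
    · rw [e2 σ h1]; exact amX_le _ _ _
  · intro σ τ h
    by_cases h1 : Agree k σ T
    · have h1' : Agree k τ T := agree_trans (agree_symm h) h1
      simp only [h1, h1', if_true]
    · have h1' : ¬ Agree k τ T := fun h2 => h1 (agree_trans h h2)
      simp only [h1, h1', if_false]
      exact hn σ τ h
  · intro σ h1
    simp only [h1, if_false]
  · intro σ τ h1 h hne
    have h1' : Agree k τ T := agree_trans (agree_symm h) h1
    simp only [h1, if_true]
    cases h2 : σ k with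
    | true =>
      have h3 : τ k = false := by
        cases h4 : τ k with
        | true => exact absurd (h2.trans h4.symm) hne
        | false => rfl
      rw [e1 σ h1 h2, e0 τ h1' h3]
      exact opp_symm hop
    | false =>
      have h3 : τ k = true := by
        cases h4 : τ k with
        | true => rfl
        | false => exact absurd (h2.trans h4.symm) hne
      rw [e0 σ h1 h2, e1 τ h1' h3]
      exact hop

theorem step : G_SP2 → G_STEP := by
  classical
  intro hSP I b D k p Q hD hp hS hQ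
  have hI : Nonempty I := by
    by_contra h
    apply hp p le_rfl
    intro i
    exact absurd ⟨i⟩ h
  obtain ⟨i0⟩ := hI
  have main : ∀ A : Finset (Fin k → Bool), ∃ (Q' : (ℕ → Bool) → Cond) (n : (ℕ → Bool) → I),
      Sys D k (k + 1) Q' ∧ (∀ σ, Q' σ ≤ Q σ) ∧ (∀ σ τ, Agree k σ τ → n σ = n τ) ∧
      ∀ σ τ, (fun i : Fin k => σ i) ∈ A → Agree k σ τ → σ k ≠ τ k →
        Opp b (n σ) (Q' σ) (Q' τ) := by
    intro A
    induction A using Finset.induction_on with
    | empty =>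
      refine ⟨Q, fun _ => i0, ⟨fun σ τ h => hS.1 σ τ (agree_mono (Nat.le_succ k) h), hS.2⟩,
        fun _ => le_rfl, fun _ _ _ => rfl, fun σ τ h => ?_⟩
      exact absurd h (Finset.notMem_empty _)
    | insert t A ht ih =>
      obtain ⟨QA, nA, h1, h2, h3, h4⟩ := ih
      obtain ⟨T, hT⟩ : ∃ T : ℕ → Bool, T = fun i => if h : i < k then t ⟨i, h⟩ else false :=
        ⟨_, rfl⟩
      have hTk : T k = false := by rw [hT]; simp
      have hTt : ∀ σ : ℕ → Bool, Agree k σ T ↔ (fun i : Fin k => σ i) = t := by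
        intro σ
        constructor
        · intro h
          funext i
          rw [h i i.2, hT]
          simp
        · intro h l hl
          have := congrFun h ⟨l, hl⟩
          simp only at this
          rw [this, hT]
          simp [hl]
      obtain ⟨Q', n, g1, g2, g3, g4, g5⟩ := ins hSP I b D k p hD hp QA nA h1
        (fun σ => (h2 σ).trans (hQ σ)) h3 T hTk
      refine ⟨Q', n, g1, fun σ => (g2 σ).trans (h2 σ), g3, fun σ τ hσ hag hne => ?_⟩
      by_cases h5 : Agree k σ T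
      · exact g5 σ τ h5 hag hne
      · have h6 : (fun i : Fin k => σ i) ∈ A := by
          rcases Finset.mem_insert.mp hσ with h7 | h7
          · exact absurd ((hTt σ).mpr h7) h5
          · exact h7
        rw [g4 σ h5]
        exact opp_lower (g2 σ) (g2 τ) (h4 σ τ h6 hag hne)
  obtain ⟨Q', n, h1, h2, h3, h4⟩ := main Finset.univ
  exact ⟨Q', n, h1, h2, h3, fun σ τ h5 h6 => h4 σ τ (Finset.mem_univ _) h5 h6⟩

end Pool.Agent.Helper97.Ku.PkSTEP
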