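import Pool.Agent.Helper97.Ku.GoalsD

/-! The tree has many branches. -/

namespace Pool.Agent.Helper97.Ku.PkTB

open Set

theorem mem_bo {P : Prop} {p : Cond} : p ∈ (bo P : BA) ↔ P := by
  constructor
  · intro h
    by_contra hP
    rw [bo_false hP] at h
    exact RO.not_mem_bot p h
  · intro h
    rw [bo_true h]
    exact RO.mem_top p

/-- A condition below `r` of level at least `γ`. -/
theorem lift (hL : G_LIFT) (r : Cond) (γ : Om) : ∃ r', r' ≤ r ∧ γ ≤ r'.g := by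
  obtain ⟨q, hq, hg, _⟩ := hL r (max r.g γ) (le_max_left _ _)
  exact ⟨q, hq, by rw [hg]; exact le_max_right _ _⟩

/-- The node on a row persists. -/
theorem row_le {r q : Cond} {ξ : Kap} {s : Set Om} (h : r ≤ q)
    (hq : q.v (.row ξ) = some (.nd s)) :
    ∃ s', r.v (.row ξ) = some (.nd s') ∧ s' ∩ Iio q.g = s := by
  obtain ⟨y, hy, hy'⟩ := h.2.2 _ _ hq
  cases y with
  | nd s' =>
    refine ⟨s', hy, ?_⟩
    simpa [Val.res] using hy'
  | od η => simp [Val.res] at hy'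

theorem Rv_eq (G : Grd Om) (a : Om → BA) (i j : Om) :
    Rv G (chr G a) i j = a (G.pi (i, j)) := by
  have h01 : G.c1 ≠ G.c0 := fun h => by
    have := (G.lt_c1 G.c0).mpr rfl
    rw [h] at this
    exact lt_irrefl _ this
  show (bo (G.c1 = G.c1) ⊓ a (G.pi (i, j))) ⊔ (bo (G.c1 = G.c0) ⊓ (a (G.pi (i, j)))ᶜ) = _
  rw [bo_true rfl, bo_false h01]
  simp

theorem Rv_x {G : Grd Om} (t : TD G) (i j : Om) : Rv G t.x i j = t.rel i j := by
  unfold TD.x
  rw [Rv_eq]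
  simp

section

variable {G : Grd Om} (t : TD G)

theorem node_stab (hR : G_ROW) {r r' : Cond} (h : r' ≤ r) {i : Om}
    (hi : t.lam (t.z i).1 ≤ r.g) : t.node r' i = t.node r i := by
  unfold TD.node
  rw [(hR G r).2.2.1 r' _ h hi]

/-- The value of `β` in the node `i`. -/
def Nd (i β : Om) : BA := RO.cl {p | t.lam (t.z i).1 ≤ p.g ∧ β ∈ t.node p i}

theorem mem_Nd (hR : G_ROW) {r : Cond} {i β : Om} (hi : t.lam (t.z i).1 ≤ r.g) :
    r ∈ Nd t i β ↔ β ∈ t.node r i := by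
  constructor
  · intro h
    obtain ⟨r', hr', _, h2⟩ := h r le_rfl
    rw [node_stab t hR hr' hi] at h2
    exact h2
  · intro h r' hr'
    exact ⟨r', le_rfl, hi.trans hr'.1, by rw [node_stab t hR hr' hi]; exact h⟩

theorem mem_rel (hR : G_ROW) {r : Cond} {i j : Om} (hj : t.lam (t.z j).1 ≤ r.g) :
    r ∈ t.rel i j ↔ ((t.z i).1 < (t.z j).1 ∧
      t.node r i = t.node r j ∩ Iio (t.lam (t.z i).1)) := by
  constructor
  · intro h
    obtain ⟨r', hr', _, h2, h3⟩ := h r le_rfl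
    have hi : t.lam (t.z i).1 ≤ r.g := (t.lam_mono h2).le.trans hj
    rw [node_stab t hR hr' hi, node_stab t hR hr' hj] at h3
    exact ⟨h2, h3⟩
  · rintro ⟨h2, h3⟩ r' hr'
    have hi : t.lam (t.z i).1 ≤ r.g := (t.lam_mono h2).le.trans hj
    refine ⟨r', le_rfl, hj.trans hr'.1, h2, ?_⟩
    rw [node_stab t hR hr' hi, node_stab t hR hr' hj]
    exact h3

/-- The value of: the node `i` of level `α` lies on row `ξ`. -/
def Y (ξ : Kap) (α i : Om) : BA :=
  RO.cl {p | (t.z i).1 = α ∧ t.lam α ≤ p.g ∧ ∃ s, p.v (.row ξ) = some (.nd s) ∧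
    t.node p i = s ∩ Iio (t.lam α)}

theorem mem_Y (hR : G_ROW) {r : Cond} {ξ : Kap} {α i : Om} {s : Set Om}
    (hr : r.v (.row ξ) = some (.nd s)) (hα : t.lam α ≤ r.g) :
    r ∈ Y t ξ α i ↔ ((t.z i).1 = α ∧ t.node r i = s ∩ Iio (t.lam α)) := by
  constructor
  · intro h
    obtain ⟨r', hr', h1, _, s', h3, h4⟩ := h r le_rfl
    have hi : t.lam (t.z i).1 ≤ r.g := by rw [h1]; exact hα
    obtain ⟨s'', h5, h6⟩ := row_le hr' hr
    rw [h3] at h5
    simp only [Option.some.injEq, Val.nd.injEq] at h5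
    rw [node_stab t hR hr' hi] at h4
    refine ⟨h1, ?_⟩
    rw [h4, ← h6, ← h5, inter_inter_Iio hα]
  · rintro ⟨h1, h2⟩ r' hr'
    have hi : t.lam (t.z i).1 ≤ r.g := by rw [h1]; exact hα
    obtain ⟨s', h5, h6⟩ := row_le hr' hr
    refine ⟨r', le_rfl, h1, hα.trans hr'.1, s', h5, ?_⟩
    rw [node_stab t hR hr' hi, h2, ← h6, inter_inter_Iio hα]

theorem lev_inf {r : Cond} {γ : Om} (hw : G.w0 ≤ γ) (hγ : γ ≤ r.g) :
    (lev r γ).Infinite := by
  obtain ⟨s, hs⟩ := r.S_ne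
  have h1 : ∀ β : Iio G.w0, ∃ s' ∈ r.S, s' ∩ Iio β.1 = s ∩ Iio β.1 ∧
      ¬ (β.1 ∈ s' ↔ β.1 ∈ s) := fun β => r.S_spl s hs β.1
        (lt_of_lt_of_le β.2 (hw.trans hγ))
  choose f hf hf1 hf2 using h1
  haveI : Nonempty (Iio G.w0) := ⟨⟨G.c0, G.w0_pos⟩⟩
  haveI : NoMaxOrder (Iio G.w0) := ⟨fun a => by
    obtain ⟨j, hj, hj'⟩ := G.w0_lim a.1 a.2
    exact ⟨⟨j, hj'⟩, hj⟩⟩
  haveI : Infinite (Iio G.w0) := NoMaxOrder.infinite
  have key : ∀ a b : Iio G.w0, a < b → f a ∩ Iio γ ≠ f b ∩ Iio γ := by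
    intro a b hab he
    have ha : a.1 < γ := lt_of_lt_of_le a.2 hw
    have h3 : (a.1 ∈ f a ↔ a.1 ∈ f b) := by
      constructor
      · intro h
        have : a.1 ∈ f a ∩ Iio γ := ⟨h, ha⟩
        rw [he] at this
        exact this.1
      · intro h
        have : a.1 ∈ f b ∩ Iio γ := ⟨h, ha⟩
        rw [← he] at this
        exact this.1
    have h4 : (a.1 ∈ f b ↔ a.1 ∈ s) := by
      have hab' : a.1 < b.1 := hab
      constructor
      · intro h
        have : a.1 ∈ f b ∩ Iio b.1 := ⟨h, hab'⟩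
        rw [hf1 b] at this
        exact this.1
      · intro h
        have : a.1 ∈ s ∩ Iio b.1 := ⟨h, hab'⟩
        rw [← hf1 b] at this
        exact this.1
    exact hf2 a (h3.trans h4)
  have hinj : Function.Injective fun β : Iio G.w0 => f β ∩ Iio γ := by
    intro a b hab
    rcases lt_trichotomy a b with h | h | h
    · exact absurd hab (key a b h)
    · exact h
    · exact absurd hab.symm (key b a h)
  exact (Set.infinite_range_of_injective hinj).mono (by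
    rintro _ ⟨β, rfl⟩
    exact ⟨f β, hf β, rfl⟩)

theorem lev_zero {r : Cond} {s : Set Om} (h : s ∈ lev r G.c0) : s = ∅ := by
  obtain ⟨s', _, rfl⟩ := h
  ext x
  simp only [mem_inter_iff, mem_Iio, mem_empty_iff_false, iff_false, not_and, not_lt]
  intro _
  exact G.c0_le x

theorem Y_ex (hE : G_ENS) (hR : G_ROW) {r : Cond} {ξ : Kap} {α : Om} {s : Set Om}
    (hr : r.v (.row ξ) = some (.nd s)) (hα : t.lam α ≤ r.g) : ∃ i, r ∈ Y t ξ α i := by
  have hs : s ∈ r.S := r.v_ok _ _ hr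
  have h1 : s ∩ Iio (t.lam α) ∈ lev r (t.lam α) := ⟨s, hs, rfl⟩
  have hen := hE G (lev r (t.lam α)) ((hR G r).1 _).1 ((hR G r).1 _).2
  by_cases h0 : α = G.c0
  · obtain ⟨i, hi⟩ := (t.z_ran (G.c0, G.c0)).mpr (Or.inl rfl)
    refine ⟨i, (mem_Y t hR hr hα).mpr ⟨by rw [hi, h0], ?_⟩⟩
    have h2 : t.node r i ∈ lev r (t.lam α) := by
      unfold TD.node
      rw [hi, ← h0]
      apply hen.1
      rw [h0]
      exact G.w0_pos
    rw [h0, t.lam_zero] at h1 h2 ⊢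
    rw [lev_zero h1, lev_zero h2]
  · obtain ⟨k, hk, hk'⟩ := hen.2.1 _ h1
    have h3 : G.c0 < α := lt_of_le_of_ne (G.c0_le α) (Ne.symm h0)
    obtain ⟨i, hi⟩ := (t.z_ran (α, k)).mpr (Or.inr ⟨h3, hk⟩)
    refine ⟨i, (mem_Y t hR hr hα).mpr ⟨by rw [hi], ?_⟩⟩
    unfold TD.node
    rw [hi]
    exact hk'

theorem Y_un (hE : G_ENS) (hR : G_ROW) {r : Cond} {ξ : Kap} {α : Om} {s : Set Om}
    (hr : r.v (.row ξ) = some (.nd s)) (hα : t.lam α ≤ r.g) {i j : Om}
    (hi : r ∈ Y t ξ α i) (hj : r ∈ Y t ξ α j) : i = j := by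
  obtain ⟨i1, i2⟩ := (mem_Y t hR hr hα).mp hi
  obtain ⟨j1, j2⟩ := (mem_Y t hR hr hα).mp hj
  have hen := hE G (lev r (t.lam α)) ((hR G r).1 _).1 ((hR G r).1 _).2
  have hzi := (t.z_ran (t.z i)).mp ⟨i, rfl⟩
  have hzj := (t.z_ran (t.z j)).mp ⟨j, rfl⟩
  apply t.z_inj
  by_cases h0 : α = G.c0
  · have h1 : t.z i = (G.c0, G.c0) := by
      rcases hzi with h | h
      · exact h
      · exact absurd h.1 (by rw [i1, h0]; exact lt_irrefl _)
    have h2 : t.z j = (G.c0, G.c0) := by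
      rcases hzj with h | h
      · exact h
      · exact absurd h.1 (by rw [j1, h0]; exact lt_irrefl _)
    rw [h1, h2]
  · have h3 : G.c0 < α := lt_of_le_of_ne (G.c0_le α) (Ne.symm h0)
    have h1 : (t.z i).2 < G.w0 := by
      rcases hzi with h | h
      · exact absurd (by rw [← i1, h]) h0
      · exact h.2
    have h2 : (t.z j).2 < G.w0 := by
      rcases hzj with h | h
      · exact absurd (by rw [← j1, h]) h0
      · exact h.2
    have hinf : (lev r (t.lam α)).Infinite := lev_inf (t.lam_inf α h3) hα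
    have h4 : enS G (lev r (t.lam α)) (t.z i).2 = enS G (lev r (t.lam α)) (t.z j).2 := by
      have e1 : t.node r i = enS G (lev r (t.lam α)) (t.z i).2 := by
        unfold TD.node; rw [i1]
      have e2 : t.node r j = enS G (lev r (t.lam α)) (t.z j).2 := by
        unfold TD.node; rw [j1]
      rw [← e1, ← e2, i2, j2]
    exact Prod.ext (i1.trans j1.symm) (hen.2.2 hinf _ _ h1 h2 h4)

/-- The list of the rows given by `z`. -/
def LL (z : FN Om BA) (ν β : Om) : BA :=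
  ⨆ α, ⨆ i, (bo (β < t.lam α) ⊓ (z.v (G.pi (ν, α)) i ⊓ Nd t i β))

end

theorem mem_eqB {a b : BA} {p : Cond} (h : p ∈ eqB a b) {r : Cond} (hr : r ≤ p) :
    r ∈ a ↔ r ∈ b := by
  obtain ⟨h1, h2⟩ := RO.mem_inf.mp h
  exact ⟨RO.mem_himp.mp h1 r hr, RO.mem_himp.mp h2 r hr⟩

theorem exists_row (D : Set Coord) (hD : Small.{0} D) (p : Cond) :
    ∃ ξ : Kap, Coord.row ξ ∉ D ∧ p.v (.row ξ) = none := by
  by_contra hcon
  push Not at hcon
  have h1 : ∀ ξ : Kap, Coord.row ξ ∈ D ∪ p.supp := by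
    intro ξ
    by_cases h : Coord.row ξ ∈ D
    · exact Or.inl h
    · exact Or.inr (hcon ξ h)
  haveI : Small.{0} D := hD
  haveI : Countable p.supp := p.supp_countable.to_subtype
  haveI : Small.{0} p.supp := Countable.toSmall _
  haveI : Small.{0} (D ∪ p.supp : Set Coord) := small_union D p.supp
  have h2 : Small.{0} Kap := small_of_injective
    (f := fun ξ : Kap => (⟨Coord.row ξ, h1 ξ⟩ : (D ∪ p.supp : Set Coord))) (by
      intro a b hab
      simpa using hab)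
  exact not_small_ordinal h2

theorem tb : G_CAP → G_ENS → G_LIFT → G_ROW → G_NL → G_FNOF → G_TB := by
  intro hC hE hL hR hN hF G t p z
  rw [RO.mem_iSup]
  intro p' _
  haveI hsm : Small.{0} (Om × Om) := inferInstance
  obtain ⟨D, _, hDs, hD⟩ := hC (Om × Om) (fun x => LL t z x.1 x.2) ∅ hsm inferInstance
  obtain ⟨ξ, hξD, hξp⟩ := exists_row D hDs p'
  obtain ⟨s0, hs0⟩ := p'.S_ne
  have hok : Ok p'.S (.row ξ) (.nd s0) := hs0
  obtain ⟨q, hq⟩ : ∃ q, q = upd p' (.row ξ) (.nd s0) hok := ⟨_, rfl⟩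
  have hqp : q ≤ p' := by rw [hq]; exact upd_le p' _ hok hξp
  have hqv : q.v (.row ξ) = some (.nd s0) := by rw [hq]; exact upd_v_self _ _ _ _
  obtain ⟨b, hb⟩ := hF (fun α i => Y t ξ α i)
  have hY1 : ∀ α, q ∈ ⨆ j, Y t ξ α j := by
    intro α
    rw [RO.mem_iSup]
    intro r hr
    obtain ⟨r', hr', hg⟩ := lift hL r (t.lam α)
    obtain ⟨s, hs, _⟩ := row_le (hr'.trans hr) hqv
    exact ⟨r', hr', Y_ex t hE hR hs hg⟩
  have hY2 : ∀ α j k, j ≠ k → q ∈ (Y t ξ α j ⊓ Y t ξ α k)ᶜ := by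
    intro α j k hjk
    rw [RO.mem_compl]
    intro r hr hr2
    obtain ⟨h1, h2⟩ := RO.mem_inf.mp hr2
    obtain ⟨r', hr', hg⟩ := lift hL r (t.lam α)
    obtain ⟨s, hs, _⟩ := row_le (hr'.trans hr) hqv
    exact hjk (Y_un t hE hR hs hg (RO.lower hr' h1) (RO.lower hr' h2))
  have hbY : ∀ α i (r : Cond), r ≤ q → (r ∈ Y t ξ α i ↔ r ∈ b.v α i) := fun α i r hr =>
    mem_eqB (hb α q (hY1 α) (hY2 α) i) hr
  refine ⟨q, hqp, b, RO.mem_inf.mpr ⟨RO.mem_inf.mpr ⟨?_, ?_⟩, ?_⟩⟩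
  · simp only [RO.mem_iInf]
    intro α β n m
    rw [RO.mem_himp]
    intro r hr h
    obtain ⟨h1, h2⟩ := RO.mem_inf.mp h
    obtain ⟨h2, h3⟩ := RO.mem_inf.mp h2
    have hαβ : α < β := mem_bo.mp h1
    rw [Rv_x]
    refine RO.dense fun r1 hr1 => ?_
    obtain ⟨r', hr', hg⟩ := lift hL r1 (t.lam β)
    refine ⟨r', hr', ?_⟩
    have hrr : r' ≤ r := hr'.trans hr1
    have hrq : r' ≤ q := hrr.trans hr
    obtain ⟨s, hs, _⟩ := row_le hrq hqv
    have h4 := (mem_Y t hR hs ((t.lam_mono hαβ).le.trans hg)).mp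
      ((hbY α n r' hrq).mpr (RO.lower hrr h2))
    have h5 := (mem_Y t hR hs hg).mp ((hbY β m r' hrq).mpr (RO.lower hrr h3))
    rw [mem_rel t hR (by rw [h5.1]; exact hg)]
    refine ⟨by rw [h4.1, h5.1]; exact hαβ, ?_⟩
    rw [h4.1, h4.2, h5.2, inter_inter_Iio (t.lam_mono hαβ).le]
  · simp only [RO.mem_iInf]
    intro α n i
    rw [RO.mem_himp]
    intro r hr h
    obtain ⟨h1, h2⟩ := RO.mem_inf.mp h
    rw [Rv_x] at h2
    rw [RO.mem_iSup]
    intro r1 hr1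
    obtain ⟨r', hr', hg⟩ := lift hL r1 (t.lam α)
    have hrr : r' ≤ r := hr'.trans hr1
    have hrq : r' ≤ q := hrr.trans hr
    obtain ⟨s, hs, _⟩ := row_le hrq hqv
    have h4 := (mem_Y t hR hs hg).mp ((hbY α n r' hrq).mpr (RO.lower hrr h1))
    have h5 := (mem_rel t hR (i := i) (j := n) (by rw [h4.1]; exact hg)).mp
      (RO.lower hrr h2)
    have h6 : (t.z i).1 < α := by rw [← h4.1]; exact h5.1
    refine ⟨r', hr', (t.z i).1, RO.mem_inf.mpr ⟨mem_bo.mpr h6, ?_⟩⟩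
    rw [← hbY _ _ r' hrq, mem_Y t hR hs ((t.lam_mono h6).le.trans hg)]
    refine ⟨rfl, ?_⟩
    rw [h5.2, h4.2, inter_inter_Iio (t.lam_mono h6).le]
  · rw [RO.mem_compl]
    intro w hw hlst
    obtain ⟨w', hw', ν, hν⟩ := (RO.mem_iSup.mp hlst) w le_rfl
    have hwq : w' ≤ q := hw'.trans hw
    have hz : ∀ α n (r : Cond), r ≤ w' → r ∈ z.v (G.pi (ν, α)) n → r ∈ b.v α n := by
      intro α n r hr h
      exact RO.mem_himp.mp (RO.mem_iInf.mp (RO.mem_iInf.mp hν α) n) r hr h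
    have heq : ∀ β, w' ∈ eqB (rowN ξ β) (LL t z ν β) := by
      intro β
      refine RO.mem_inf.mpr ⟨RO.mem_himp.mpr ?_, RO.mem_himp.mpr ?_⟩
      · intro r hr h
        refine RO.dense fun r1 hr1 => ?_
        obtain ⟨α, hα⟩ : ∃ α, β < t.lam α := by
          obtain ⟨α, hα⟩ := G.nomax β
          exact ⟨α, lt_of_lt_of_le hα t.lam_mono.le_apply⟩
        obtain ⟨r2, hr2, hg⟩ := lift hL r1 (t.lam α)
        have htot : r2 ∈ ⨆ j, z.v (G.pi (ν, α)) j := by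
          rw [z.tot]; exact RO.mem_top _
        obtain ⟨r3, hr3, i, hi⟩ := RO.mem_iSup.mp htot r2 le_rfl
        refine ⟨r3, hr3.trans hr2, ?_⟩
        have hg3 : t.lam α ≤ r3.g := hg.trans hr3.1
        have h3r : r3 ≤ r := (hr3.trans hr2).trans hr1
        have h3w : r3 ≤ w' := h3r.trans hr
        have h3q : r3 ≤ q := h3w.trans hwq
        obtain ⟨s, hs, _⟩ := row_le h3q hqv
        have h4 := (mem_Y t hR hs hg3).mp ((hbY α i r3 h3q).mpr (hz α i r3 h3w hi))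
        have h5 : β ∈ s := by
          by_contra hns
          exact RO.not_mem_compl (RO.lower h3r h)
            ((hR G r3).2.2.2.2.2.2.1 ξ s β hs (lt_of_lt_of_le hα hg3) hns)
        have h6 : r3 ∈ Nd t i β := by
          rw [mem_Nd t hR (by rw [h4.1]; exact hg3), h4.2]
          exact ⟨h5, hα⟩
        unfold LL
        rw [RO.mem_iSup]
        intro r4 hr4
        refine ⟨r4, le_rfl, α, ?_⟩
        rw [RO.mem_iSup]
        intro r5 hr5
        refine ⟨r5, le_rfl, i, ?_⟩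
        have h53 : r5 ≤ r3 := hr5.trans hr4
        exact RO.mem_inf.mpr ⟨mem_bo.mpr hα, RO.mem_inf.mpr ⟨RO.lower h53 hi,
          RO.lower h53 h6⟩⟩
      · intro r hr h
        refine RO.dense fun r1 hr1 => ?_
        obtain ⟨r2, hr2, α, h2⟩ := RO.mem_iSup.mp h r1 hr1
        obtain ⟨r3, hr3, i, h3⟩ := RO.mem_iSup.mp h2 r2 le_rfl
        obtain ⟨r4, hr4, hg⟩ := lift hL r3 (t.lam α)
        obtain ⟨h5, h6⟩ := RO.mem_inf.mp (RO.lower hr4 h3)
        obtain ⟨h6, h7⟩ := RO.mem_inf.mp h6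
        have hβ : β < t.lam α := mem_bo.mp h5
        refine ⟨r4, (hr4.trans hr3).trans hr2, ?_⟩
        have h4w : r4 ≤ w' := (((hr4.trans hr3).trans hr2).trans hr1).trans hr
        have h4q : r4 ≤ q := h4w.trans hwq
        obtain ⟨s, hs, _⟩ := row_le h4q hqv
        have h8 := (mem_Y t hR hs hg).mp ((hbY α i r4 h4q).mpr (hz α i r4 h4w h6))
        rw [mem_Nd t hR (by rw [h8.1]; exact hg), h8.2] at h7
        exact (hR G r4).2.2.2.2.2.1 ξ s β hs (lt_of_lt_of_le hβ hg) h7.1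
    obtain ⟨sw, hsw, _⟩ := row_le hwq hqv
    have hnl := hN (LL t z) D ξ w' sw (fun ν β => hD (ν, β)) hξD hsw
    obtain ⟨r, hr, β, hβ⟩ := RO.mem_iSup.mp (RO.mem_iInf.mp hnl ν) w' le_rfl
    exact RO.not_mem_compl (RO.lower hr (heq β)) hβ

end Pool.Agent.Helper97.Ku.PkTB
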